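import Pool.Agent.P.MP_d95e10_pr.Final
import Pool.Agent.P.MP_d95e10_pr.Limit

/-!
Simultaneous uniqueness of the infinite cluster in the coupled random-cluster model.
-/

namespace Pool.Agent.Results.MP_d95e10_pr.Simultaneous

open MeasureTheory Filter Pool.Agent.P.MP_d95e10_pr

theorem result (d : ℕ) (hd : 2 ≤ d) (q : ℝ) (hq : 1 ≤ q) :
    ∃ (μ : Measure (Conf d)) (_ : IsProbabilityMeasure μ),
      TendstoInDistribution (Z q 0) atTop id (fun _ => clockLaw d) μ ∧
      TendstoInDistribution (Z q 1) atTop id (fun _ => clockLaw d) μ ∧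
      ∃ i i' : unitInterval → ℕ∞, Monotone i ∧ Monotone i' ∧
        (∀ p, i p ∈ ({0, 1} : Set ℕ∞) ∧ i' p ∈ ({0, 1} : Set ℕ∞)) ∧
        ∀ᵐ ζ ∂μ, ∀ p : unitInterval,
          infCount {e | ζ e < p} = i p ∧ infCount {e | ζ e ≤ p} = i' p :=
  have hd1 : 1 ≤ d := le_trans (by norm_num) hd
  have := Measure.isProbabilityMeasure_map (μ := clockLaw d) (measurable_zt hq).aemeasurable
  ⟨_, this, tendsto_Z_zero hd1 hq rfl, tendsto_Z_one hq rfl, simultaneous hd1 hq⟩

end Pool.Agent.Results.MP_d95e10_pr.Simultaneous
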